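import Pool.Agent.W97.TW.Defs

/-!
For every `N ≥ 1` there are infinitely many odd primitive quadratic characters `χ` with `χ(N) = 1`.
-/

set_option autoImplicit false

open DirichletCharacter NumberTheorySymbols

namespace Run7.h875.SV

open Pool.Agent.W97.TW

/-- the quadratic character modulo a prime, with complex values -/
noncomputable def leg (p : ℕ) [Fact p.Prime] : DirichletCharacter ℂ p :=
  (quadraticChar (ZMod p)).ringHomComp (Int.castRingHom ℂ)

lemma leg_int (p : ℕ) [Fact p.Prime] (x : ℤ) : leg p x = ((J(x | p) : ℤ) : ℂ) := by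
  unfold leg
  rw [MulChar.ringHomComp_apply, ← jacobiSym.legendreSym.to_jacobiSym]
  rfl

lemma leg_sq (p : ℕ) [Fact p.Prime] : leg p ^ 2 = 1 := by
  apply MulChar.IsQuadratic.sq_eq_one
  exact (quadraticChar_isQuadratic (ZMod p)).comp _

lemma jacobi_four (N : ℕ) (hN : 0 < N) {p : ℕ} (hp : p.Prime) (h : (p : ZMod (4 * N)) = -1) :
    J((N : ℤ) | p) = 1 ∧ J(-1 | p) = -1 := by
  have h4N : 0 < 4 * N := by omega
  have hmod : p % (4 * N) = 4 * N - 1 := by
    have h1 : ((p + 1 : ℕ) : ZMod (4 * N)) = 0 := by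
      push_cast
      rw [h]
      ring
    rw [ZMod.natCast_eq_zero_iff] at h1
    obtain ⟨c, hc⟩ := h1
    have hc0 : c ≠ 0 := by
      rintro rfl
      simp at hc
    obtain ⟨d, rfl⟩ := Nat.exists_eq_succ_of_ne_zero hc0
    have h2 : p = (4 * N - 1) + 4 * N * d := by
      have : 4 * N * d.succ = 4 * N * d + 4 * N := by
        rw [Nat.succ_eq_add_one]
        ring
      omega
    rw [h2, Nat.add_mul_mod_self_left, Nat.mod_eq_of_lt (by omega)]
  have hmod4 : p % 4 = 3 := by
    have h1 : p % (4 * N) % 4 = p % 4 := Nat.mod_mod_of_dvd p (Dvd.intro _ rfl)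
    rw [← h1, hmod]
    omega
  have hodd : _root_.Odd p := by
    rw [Nat.odd_iff]
    omega
  constructor
  · rw [jacobiSym.mod_right _ hodd, Int.natAbs_natCast, hmod]
    have hodd' : _root_.Odd (4 * N - 1) := by
      rw [Nat.odd_iff]
      omega
    have h2 : J((4 * N : ℤ) | (4 * N - 1)) = 1 := by
      have h3 : J((4 * N : ℤ) | (4 * N - 1)) = J((1 : ℤ) | (4 * N - 1)) := by
        apply jacobiSym.mod_left'
        have h6 : (4 * N : ℤ) ≡ 1 [ZMOD ((4 * N - 1 : ℕ) : ℤ)] := by
          rw [Int.modEq_iff_dvd]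
          refine ⟨-1, ?_⟩
          rw [Nat.cast_sub (by omega)]
          push_cast
          ring
        exact h6
      rw [h3]
      exact jacobiSym.one_left _
    have h5 : J((4 : ℤ) | (4 * N - 1)) = 1 := by
      have : (4 : ℤ) = 2 ^ 2 := by norm_num
      rw [this]
      apply jacobiSym.sq_one'
      have : Nat.Coprime 2 (4 * N - 1) := by
        rw [Nat.coprime_two_left]
        exact hodd'
      exact_mod_cast this
    rw [jacobiSym.mul_left, h5, one_mul] at h2
    exact h2
  · rw [jacobiSym.at_neg_one hodd, ZMod.χ₄_nat_three_mod_four hmod4]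

lemma leg_primitive (p : ℕ) [Fact p.Prime] (h : leg p ≠ 1) : (leg p).IsPrimitive := by
  have hp : p.Prime := Fact.out
  have : NeZero p := ⟨hp.ne_zero⟩
  rcases (Nat.dvd_prime hp).1 (conductor_dvd_level (leg p)) with h1 | h1
  · exact absurd (eq_one_iff_conductor_eq_one.2 h1) h
  · exact h1

/-- **Odd quadratic characters with `χ(N) = 1`.** -/
theorem exists_char (N : ℕ) (hN : 0 < N) (M : ℕ) :
    ∃ χ : QuadraticCharacter, M < χ.modulus ∧ χ.χ (-1) = -1 ∧ χ.χ N = 1 := by
  have : NeZero (4 * N) := ⟨by omega⟩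
  obtain ⟨p, hpM, hp, h⟩ := Nat.forall_exists_prime_gt_and_eq_mod
    (q := 4 * N) (a := -1) isUnit_one.neg M
  have : Fact p.Prime := ⟨hp⟩
  obtain ⟨h1, h2⟩ := jacobi_four N hN hp h
  have h3 : leg p (-1) = -1 := by
    have := leg_int p (-1)
    push_cast at this
    rw [this, h2]
    norm_num
  have h4 : leg p N = 1 := by
    have := leg_int p N
    push_cast at this
    rw [this, h1]
    norm_num
  have h5 : leg p ≠ 1 := by
    intro h6
    rw [h6, MulChar.one_apply isUnit_one.neg] at h3
    norm_num at h3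
  exact ⟨⟨p, hp.pos, leg p, leg_primitive p h5, leg_sq p, h5⟩, hpM, h3, h4⟩

end Run7.h875.SV
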