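import Pool.Agent.W97.TW.NewEleven
import Pool.Agent.W97.TW.Lfun
import Pool.Agent.H397R2.PP.B0

/-!
The Fourier coefficients of `η(z)² η(11z)²` are integers.
-/

set_option autoImplicit false

open UpperHalfPlane MatrixGroups CongruenceSubgroup Filter Topology PowerSeries

namespace Run7.h875.SV

open Pool.Agent.W97.TW Pool.Agent.H397R2.PP.B0

/-- `P(q^11)` -/
noncomputable def sub11 {R : Type*} [CommRing R] (P : R⟦X⟧) : R⟦X⟧ :=
  PowerSeries.mk fun n => if 11 ∣ n then coeff (n / 11) P else 0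

lemma sub11_map {R S : Type*} [CommRing R] [CommRing S] (φ : R →+* S) (P : R⟦X⟧) :
    (sub11 P).map φ = sub11 (P.map φ) := by
  ext n
  rw [coeff_map, sub11, sub11, coeff_mk, coeff_mk]
  by_cases h : 11 ∣ n
  · rw [if_pos h, if_pos h, coeff_map]
  · rw [if_neg h, if_neg h, map_zero]

lemma Ev_sub11 {q : ℂ} {P : ℂ⟦X⟧} {a : ℂ} (h : Ev (q ^ 11) P a) : Ev q (sub11 P) a := by
  have hinj : Function.Injective (fun n : ℕ => 11 * n) := fun x y hxy => by
    simpa using hxy
  have h0 : ∀ n, coeff n P * (q ^ 11) ^ n = coeff (11 * n) (sub11 P) * q ^ (11 * n) := by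
    intro n
    rw [sub11, coeff_mk, if_pos (dvd_mul_right _ _), Nat.mul_div_cancel_left _ (by norm_num),
      pow_mul]
  have hsupp : ∀ x ∉ Set.range (fun n : ℕ => 11 * n), coeff x (sub11 P) * q ^ x = 0 := by
    intro x hx
    have : ¬ 11 ∣ x := by
      rintro ⟨y, rfl⟩
      exact hx ⟨y, rfl⟩
    rw [sub11, coeff_mk, if_neg this, zero_mul]
  constructor
  · have h1 := h.1
    simp only [h0] at h1
    exact (hinj.summable_iff (f := fun n => ‖coeff n (sub11 P) * q ^ n‖) (fun x hx => by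
      rw [hsupp x hx, norm_zero])).1 h1
  · have h1 := h.2
    simp only [h0] at h1
    exact (hinj.hasSum_iff (f := fun n => coeff n (sub11 P) * q ^ n) hsupp).1 h1

/-- the expansion of `f11` with integer coefficients -/
noncomputable def Z11 : ℤ⟦X⟧ := X * ((pentagonalSeries ℤ) ^ 2 * (sub11 (pentagonalSeries ℤ)) ^ 2)

theorem qExpansion_f11 : qExpansion 1 f11 = Z11.map (Int.castRingHom ℂ) := by
  have hD : Z11.map (Int.castRingHom ℂ) =
      X * ((pentagonalSeries ℂ) ^ 2 * (sub11 (pentagonalSeries ℂ)) ^ 2) := by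
    unfold Z11
    rw [map_mul, map_mul, map_pow, map_pow, map_X, sub11_map, pent_map]
  have h : ∀ τ : ℍ, HasSum (fun m => coeff m (Z11.map (Int.castRingHom ℂ)) •
      Function.Periodic.qParam 1 τ ^ m) (f11 τ) := by
    intro τ
    have hq : ‖Function.Periodic.qParam 1 τ‖ < 1 :=
      Function.Periodic.norm_qParam_lt_one one_pos τ.im_pos
    have hq11 : ‖Function.Periodic.qParam 1 τ ^ 11‖ < 1 := by
      rw [norm_pow]
      exact pow_lt_one₀ (norm_nonneg _) hq (by norm_num)
    have h1 := (Ev.X (Function.Periodic.qParam 1 τ)).mul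
      (((Ev.pent hq).pow 2).mul ((Ev_sub11 (Ev.pent hq11)).pow 2))
    rw [← hD] at h1
    have h2 : f11 τ = Function.Periodic.qParam 1 τ *
        ((∏' n, (1 - Function.Periodic.qParam 1 τ ^ (n + 1))) ^ 2 *
        (∏' n, (1 - (Function.Periodic.qParam 1 τ ^ 11) ^ (n + 1))) ^ 2) := e11_q τ
    rw [h2]
    exact h1.2
  ext m
  have h3 := ModularFormClass.qExpansion_coeff_unique (f := f11) one_pos one_mem0 h m
  exact h3.symm

theorem f11_int (n : ℕ) : ∃ a : ℤ, (qExpansion 1 f11).coeff n = a := by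
  rw [qExpansion_f11, coeff_map]
  exact ⟨_, rfl⟩

end Run7.h875.SV
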