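import Pool.Agent.Run7.h875.SV.Twist

/-!
The signs of `f ⊗ ψ` and `f ⊗ χψ` are opposite if `χ(-1) = -1` and `χ(N) = 1`.
-/

set_option autoImplicit false

open UpperHalfPlane MatrixGroups CongruenceSubgroup Filter Topology DirichletCharacter

namespace Run7.h875.SV

open Pool.Agent.W97.TW

section chars

variable {a b : ℕ} [NeZero a] [NeZero b] (χ : DirichletCharacter ℂ a) (ψ : DirichletCharacter ℂ b)

lemma cond_ne_zero : (mul χ ψ).conductor ≠ 0 := by
  have : NeZero (a.lcm b) := ⟨Nat.lcm_ne_zero (NeZero.ne a) (NeZero.ne b)⟩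
  exact conductor_ne_zero _

lemma pm_apply {x : ℤ} (ha : IsCoprime x a) (hb : IsCoprime x b) :
    χ.primitive_mul ψ x = χ x * ψ x := by
  have hab : IsCoprime x ((a.lcm b : ℕ) : ℤ) := by
    have h1 : IsCoprime x ((a : ℤ) * b) := ha.mul_right hb
    have h2 : ((a.lcm b : ℕ) : ℤ) ∣ (a : ℤ) * b := by
      exact_mod_cast Nat.lcm_dvd_mul a b
    exact h1.of_isCoprime_of_dvd_right h2
  rw [mul_def, primitiveCharacter_apply_of_isCoprime _ hab]
  unfold mul
  rw [MulChar.mul_apply, changeLevel_eq_cast_of_dvd' _ _ hab, changeLevel_eq_cast_of_dvd' _ _ hab]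

lemma pm_sq (hχ : χ ^ 2 = 1) (hψ : ψ ^ 2 = 1) : (χ.primitive_mul ψ) ^ 2 = 1 := by
  have : NeZero (a.lcm b) := ⟨Nat.lcm_ne_zero (NeZero.ne a) (NeZero.ne b)⟩
  apply changeLevel_injective (conductor_dvd_level (mul χ ψ))
  rw [map_pow, mul_def, changeLevel_primitiveCharacter, map_one]
  unfold mul
  rw [mul_pow, ← map_pow, ← map_pow, hχ, hψ, map_one, map_one, mul_one]

lemma cond_dvd : (mul χ ψ).conductor ∣ a.lcm b := conductor_dvd_level _

lemma dvd_cond (hχ : χ ^ 2 = 1) (hψ : ψ.IsPrimitive) : b ∣ a.lcm (mul χ ψ).conductor := by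
  have : NeZero (a.lcm b) := ⟨Nat.lcm_ne_zero (NeZero.ne a) (NeZero.ne b)⟩
  set χ' := changeLevel (Nat.dvd_lcm_left a b) χ with hχ'
  set ψ' := changeLevel (Nat.dvd_lcm_right a b) ψ with hψ'
  have h1 : χ' * (χ' * ψ') = ψ' := by
    have : χ' * χ' = 1 := by
      rw [← sq, hχ', ← map_pow, hχ, map_one]
    rw [← mul_assoc, this, one_mul]
  have h2 : ψ'.conductor = b := by
    rw [hψ', conductor_changeLevel, hψ]
  have h3 : ψ'.conductor ∣ χ'.conductor.lcm (χ' * ψ').conductor := by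
    conv_lhs => rw [← h1]
    exact conductor_mul_dvd_lcm_conductor _ _
  have h4 : χ'.conductor ∣ a := by
    rw [hχ', conductor_changeLevel]
    exact conductor_dvd_level _
  rw [h2] at h3
  exact h3.trans (Nat.lcm_dvd (h4.trans (Nat.dvd_lcm_left _ _)) (Nat.dvd_lcm_right _ _))

end chars

variable {N : ℕ} {k : ℤ} {f : CuspForm (Gamma0 N : Subgroup (GL (Fin 2) ℝ)) k}

lemma char_val_sq {m : ℕ} {ψ : DirichletCharacter ℂ m} (h : ψ ^ 2 = 1) {x : ZMod m}
    (hx : IsUnit x) : ψ x ^ 2 = 1 := by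
  rw [← MulChar.pow_apply' ψ two_ne_zero, h, MulChar.one_apply hx]

lemma coprime_of_apply_ne_zero {a : ℕ} {χ : DirichletCharacter ℂ a} {n : ℕ} (h : χ n ≠ 0) :
    n.Coprime a := by
  by_contra hc
  exact h (MulChar.map_nonunit χ (fun hu => hc ((ZMod.isUnit_iff_coprime n a).1 hu)))

/-- **The signs are opposite.** -/
theorem sgn_mul [NeZero N] (hN : N = 1 ∨ N.Prime) (hf : IsNewform N k f) {w : ℂ}
    (hw : ∀ z : ℍ, f (ofComplex (-1 / ((N : ℂ) * z))) = w * (z : ℂ) ^ k * f z)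
    {a b : ℕ} [NeZero a] [NeZero b] (χ : DirichletCharacter ℂ a) (ψ : DirichletCharacter ℂ b)
    (hχ : χ ^ 2 = 1) (hodd : χ (-1) = -1) (hχN : χ N = 1) (hψ : ψ.IsPrimitive) (hψ2 : ψ ^ 2 = 1) :
    (N.Coprime b ∨ N ∣ b) ∧
    (N.Coprime (mul χ ψ).conductor ∨ N ∣ (mul χ ψ).conductor) ∧
    sgn N k w ψ * sgn N k w (χ.primitive_mul ψ) = -1 := by
  classical
  have hη := eta_sq hf hw
  have hIk : (Complex.I ^ k) ^ 2 = 1 := by
    rw [← zpow_natCast, ← zpow_mul, mul_comm, zpow_mul]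
    have : Complex.I ^ ((2 : ℕ) : ℤ) = -1 := by
      rw [zpow_natCast]
      exact Complex.I_sq
    rw [this]
    exact neg_one_zpow hf
  have hNa : N.Coprime a := coprime_of_apply_ne_zero (by rw [hχN]; exact one_ne_zero)
  have hm1 : ψ (-1) ^ 2 = 1 := char_val_sq hψ2 (isUnit_one.neg)
  have hpm1 : χ.primitive_mul ψ (-1) = -ψ (-1) := by
    have h1 := pm_apply χ ψ (x := -1) isCoprime_one_left.neg_left isCoprime_one_left.neg_left
    push_cast at h1
    rw [h1, hodd]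
    ring
  by_cases hb : N.Coprime b
  · have hc : N.Coprime (mul χ ψ).conductor :=
      Nat.Coprime.of_dvd_right ((cond_dvd χ ψ).trans (Nat.lcm_dvd_mul a b))
        (Nat.Coprime.mul_right hNa hb)
    refine ⟨Or.inl hb, Or.inl hc, ?_⟩
    unfold sgn
    rw [if_pos hb, if_pos hc]
    have hu : IsUnit (-(N : ZMod b)) := ((ZMod.isUnit_iff_coprime N b).2 hb).neg
    have h1 := char_val_sq hψ2 hu
    have h2 : χ.primitive_mul ψ (-(N : ZMod (mul χ ψ).conductor)) = -ψ (-(N : ZMod b)) := by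
      have h3 := pm_apply χ ψ (x := -(N : ℤ)) (Nat.isCoprime_iff_coprime.2 hNa).neg_left
        (Nat.isCoprime_iff_coprime.2 hb).neg_left
      push_cast at h3
      rw [h3]
      have h4 : χ (-(N : ZMod a)) = -1 := by
        rw [← neg_one_mul, map_mul, hodd, hχN, mul_one]
      rw [h4]
      ring
    rw [h2]
    linear_combination (-(eta N k w) ^ 2) * h1 - hη
  · have hNp : N.Prime := by
      rcases hN with h | h
      · exact absurd (by rw [h]; exact Nat.coprime_one_left b) hb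
      · exact h
    have hNb : N ∣ b := (Nat.coprime_or_dvd_of_prime hNp b).resolve_left hb
    have hNc : N ∣ (mul χ ψ).conductor := by
      have h1 : N ∣ a * (mul χ ψ).conductor :=
        hNb.trans ((dvd_cond χ ψ hχ hψ).trans (Nat.lcm_dvd_mul _ _))
      exact hNa.dvd_of_dvd_mul_left h1
    have hc : ¬ N.Coprime (mul χ ψ).conductor := by
      intro h
      exact hNp.one_lt.ne' (Nat.Coprime.eq_one_of_dvd h hNc)
    refine ⟨Or.inr hNb, Or.inr hNc, ?_⟩
    unfold sgn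
    rw [if_neg hb, if_neg hc, hpm1]
    linear_combination (-(Complex.I ^ k) ^ 2) * hm1 - hIk

/-- **One of the two central values vanishes.** -/
theorem product_zero [NeZero N] (hN : N = 1 ∨ N.Prime) (hk : 0 < k) (hf : IsNewform N k f)
    {a b : ℕ} [NeZero a] [NeZero b] (χ : DirichletCharacter ℂ a) (ψ : DirichletCharacter ℂ b)
    (hχ : χ ^ 2 = 1) (hodd : χ (-1) = -1) (hχN : χ N = 1) (hψ : ψ.IsPrimitive) (hψ2 : ψ ^ 2 = 1) :
    ∃ L₁ L₂ : ℂ → ℂ, IsTwistedLFunction N k f ψ L₁ ∧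
      IsTwistedLFunction N k f (χ.primitive_mul ψ) L₂ ∧ L₁ (1 / 2) * L₂ (1 / 2) = 0 := by
  obtain ⟨w, hw⟩ := hf.fricke
  have : NeZero (mul χ ψ).conductor := ⟨cond_ne_zero χ ψ⟩
  obtain ⟨h1, h2, h3⟩ := sgn_mul hN hf hw χ ψ hχ hodd hχN hψ hψ2
  have h4 : sgn N k w ψ ≠ 0 := by
    intro h
    rw [h, zero_mul] at h3
    norm_num at h3
  have h5 : sgn N k w (χ.primitive_mul ψ) ≠ 0 := by
    intro h
    rw [h, mul_zero] at h3
    norm_num at h3
  obtain ⟨L₁, hL₁, hz₁⟩ := exists_L hf hk hw ψ hψ hψ2 h1 h4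
  obtain ⟨L₂, hL₂, hz₂⟩ := exists_L hf hk hw (χ.primitive_mul ψ)
    (primitive_mul_isPrimitive χ ψ) (pm_sq χ ψ hχ hψ2) h2 h5
  refine ⟨L₁, L₂, hL₁, hL₂, ?_⟩
  by_cases h6 : sgn N k w ψ = 1
  · have h7 : sgn N k w (χ.primitive_mul ψ) ≠ 1 := by
      intro h
      rw [h6, h] at h3
      norm_num at h3
    rw [hz₂ h7, mul_zero]
  · rw [hz₁ h6, zero_mul]

end Run7.h875.SV
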