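import Pool.Agent.W97.TW.Lfun
import Pool.Agent.W97.TW.Hecke
import Pool.Agent.W97.TW.Delta

/-!
The `L`-functions of the quadratic twists of a newform of level one or of prime level: existence,
uniqueness, and the sign of the functional equation (from the starting library `Pool.Agent.W97.TW`).
-/

set_option autoImplicit false

open UpperHalfPlane MatrixGroups CongruenceSubgroup Filter Topology

namespace Run7.h875.SV

open Pool.Agent.W97.TW

variable {N : ℕ} {k : ℤ} {f : CuspForm (Gamma0 N : Subgroup (GL (Fin 2) ℝ)) k}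

lemma A_one (hf : IsNewform N k f) : A f 1 = 1 := hf.coeff_one

lemma exists_ne [NeZero N] (hf : IsNewform N k f) : ∃ z : ℍ, f z ≠ 0 := by
  by_contra h
  push Not at h
  have h1 : (⇑f : ℍ → ℂ) = 0 := funext h
  have h2 := hf.coeff_one
  have h3 : f = 0 := by
    apply DFunLike.coe_injective
    rw [h1]
    rfl
  rw [h3] at h2
  have h4 : (qExpansion 1 (0 : CuspForm (Gamma0 N : Subgroup (GL (Fin 2) ℝ)) k)).coeff 1 = 0 := by
    have := ModularFormClass.qExpansion_coeff_unique (Γ := (Gamma0 N : Subgroup (GL (Fin 2) ℝ)))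
      (k := k) (c := fun _ => (0 : ℂ)) one_pos one_mem0
      (f := (0 : CuspForm (Gamma0 N : Subgroup (GL (Fin 2) ℝ)) k)) (fun τ => by
        simp) 1
    exact this.symm
  rw [h4] at h2
  exact zero_ne_one h2

/-- the weight is even -/
lemma neg_one_zpow [NeZero N] (hf : IsNewform N k f) : (-1 : ℂ) ^ k = 1 := by
  obtain ⟨z, hz⟩ := exists_ne hf
  have h1 := f_gamma f (a := -1) (b := 0) (c := 0) (d := -1) (by norm_num) (dvd_zero _) z.im_pos
  have h2 : (((-1 : ℤ) : ℂ) * (z : ℂ) + ((0 : ℤ) : ℂ)) / (((0 : ℤ) : ℂ) * (z : ℂ) + ((-1 : ℤ) : ℂ)) =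
      (z : ℂ) := by
    push_cast
    field_simp
    ring
  rw [h2] at h1
  have h3 : f (ofComplex (z : ℂ)) ≠ 0 := by
    rwa [ofComplex_apply]
  have h4 : (((0 : ℤ) : ℂ) * (z : ℂ) + ((-1 : ℤ) : ℂ)) = -1 := by push_cast; ring
  rw [h4] at h1
  have h5 : (1 - (-1 : ℂ) ^ k) * f (ofComplex (z : ℂ)) = 0 := by linear_combination h1
  rcases mul_eq_zero.1 h5 with h | h
  · linear_combination -h
  · exact absurd h h3


/-! ### The Dirichlet series and its Euler product -/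

lemma lam_eq (n : ℕ) : lam N k f n = A f n * (n : ℂ) ^ (-(((k : ℂ) - 1) / 2)) := rfl

lemma lam_zero [NeZero N] : lam N k f 0 = 0 := by
  rw [lam_eq, A_zero, zero_mul]

lemma lam_one (hf : IsNewform N k f) : lam N k f 1 = 1 := by
  rw [lam_eq, A_one hf]
  simp

lemma A_rec [NeZero N] (hf : IsNewform N k f) (p : Nat.Primes) (m : ℕ) :
    A f (p * m) = A f p * A f m -
      (if (p : ℕ) ∣ N then 0 else ((p : ℕ) : ℂ) ^ (k - 1)) * (if (p : ℕ) ∣ m then A f (m / p) else 0) := by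
  obtain ⟨a, ha⟩ := hf.hecke p
  have h1 := hecke_rec f p.2.pos ha 1
  have h2 := hecke_rec f p.2.pos ha m
  unfold B at h1 h2
  have hp1 : ¬ (p : ℕ) ∣ 1 := fun h => p.2.one_lt.ne' (Nat.dvd_one.1 h)
  rw [if_neg hp1, mul_zero, zero_add, mul_one, A_one hf, mul_one] at h1
  rw [h1]
  linear_combination h2

lemma lam_rec [NeZero N] (hf : IsNewform N k f) (p : Nat.Primes) (m : ℕ) (hm : 0 < m) :
    lam N k f (p * m) = lam N k f p * lam N k f m -
      (if (p : ℕ) ∣ N then 0 else 1) * (if (p : ℕ) ∣ m then lam N k f (m / p) else 0) := by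
  have hp : ((p : ℕ) : ℂ) ≠ 0 := by exact_mod_cast p.2.ne_zero
  simp only [lam_eq]
  rw [A_rec hf p m]
  have h1 : ((((p : ℕ) * m : ℕ)) : ℂ) ^ (-(((k : ℂ) - 1) / 2)) =
      ((p : ℕ) : ℂ) ^ (-(((k : ℂ) - 1) / 2)) * (m : ℂ) ^ (-(((k : ℂ) - 1) / 2)) := by
    push_cast
    exact Complex.natCast_mul_natCast_cpow _ _ _
  rw [h1]
  by_cases hpm : (p : ℕ) ∣ m
  · obtain ⟨r, rfl⟩ := hpm
    have hr : r ≠ 0 := by
      rintro rfl
      simp at hm
    rw [if_pos (dvd_mul_right _ _), if_pos (dvd_mul_right _ _), Nat.mul_div_cancel_left _ p.2.pos]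
    have h2 : ((((p : ℕ) * r : ℕ)) : ℂ) ^ (-(((k : ℂ) - 1) / 2)) =
        ((p : ℕ) : ℂ) ^ (-(((k : ℂ) - 1) / 2)) * (r : ℂ) ^ (-(((k : ℂ) - 1) / 2)) := by
      push_cast
      exact Complex.natCast_mul_natCast_cpow _ _ _
    rw [h2]
    by_cases hN : (p : ℕ) ∣ N
    · rw [if_pos hN, if_pos hN]
      ring
    · rw [if_neg hN, if_neg hN]
      have h3 : ((p : ℕ) : ℂ) ^ (-(((k : ℂ) - 1) / 2)) * ((p : ℕ) : ℂ) ^ (-(((k : ℂ) - 1) / 2)) *
          ((p : ℕ) : ℂ) ^ (k - 1) = 1 := by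
        rw [← Complex.cpow_intCast, ← Complex.cpow_add _ _ hp, ← Complex.cpow_add _ _ hp]
        have : -(((k : ℂ) - 1) / 2) + -(((k : ℂ) - 1) / 2) + ((k - 1 : ℤ) : ℂ) = 0 := by
          push_cast
          ring
        rw [this, Complex.cpow_zero]
      linear_combination (-(A f r) * (r : ℂ) ^ (-(((k : ℂ) - 1) / 2))) * h3
  · rw [if_neg hpm, if_neg hpm]
    ring

lemma lam_bound [NeZero N] : ∃ C : ℝ, ∀ n : ℕ, ‖lam N k f n‖ ≤ C * Real.sqrt n := by
  obtain ⟨C, hC⟩ := A_bound f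
  refine ⟨C, fun n => ?_⟩
  rcases Nat.eq_zero_or_pos n with rfl | hn
  · rw [lam_zero]
    simp
  have hn0 : (0 : ℝ) < n := by exact_mod_cast hn
  have h1 := hC n hn
  rw [lam_eq, norm_mul]
  have h2 : ‖(n : ℂ) ^ (-(((k : ℂ) - 1) / 2))‖ = (n : ℝ) ^ (-(((k : ℝ) - 1) / 2)) := by
    rw [← Complex.ofReal_natCast, Complex.norm_cpow_eq_rpow_re_of_pos hn0]
    congr 1
    have : (-(((k : ℂ) - 1) / 2)) = (((-(((k : ℝ) - 1) / 2)) : ℝ) : ℂ) := by push_cast; ring
    rw [this, Complex.ofReal_re]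
  rw [h2]
  calc ‖A f n‖ * (n : ℝ) ^ (-(((k : ℝ) - 1) / 2)) ≤
      C * (n : ℝ) ^ ((k : ℝ) / 2) * (n : ℝ) ^ (-(((k : ℝ) - 1) / 2)) := by gcongr
    _ = C * Real.sqrt n := by
        rw [mul_assoc, ← Real.rpow_add hn0, Real.sqrt_eq_rpow]
        congr 2
        ring

/-! ### The functional equation -/

/-- the sign of the functional equation of `f` -/
noncomputable def eta (N : ℕ) (k : ℤ) (w : ℂ) : ℂ := w * (Complex.I / (Real.sqrt N : ℂ)) ^ k

lemma eta_sq [NeZero N] (hf : IsNewform N k f) {w : ℂ}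
    (hw : ∀ z : ℍ, f (ofComplex (-1 / ((N : ℂ) * z))) = w * (z : ℂ) ^ k * f z) :
    eta N k w ^ 2 = 1 := by
  obtain ⟨z, hz⟩ := exists_ne hf
  have hN : (N : ℂ) ≠ 0 := by exact_mod_cast NeZero.ne N
  have hzC : (z : ℂ) ≠ 0 := z.ne_zero
  have him : 0 < (-1 / ((N : ℂ) * z)).im := by
    have h1 : 0 < ((N : ℂ) * z).im := by
      rw [Complex.mul_im]
      simp only [Complex.natCast_re, Complex.natCast_im, zero_mul, add_zero]
      have : (0 : ℝ) < N := by exact_mod_cast NeZero.pos N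
      have := z.im_pos
      positivity
    rw [neg_div, Complex.neg_im, one_div, Complex.inv_im, neg_div, neg_neg]
    exact div_pos h1 (Complex.normSq_pos.2 (ne_zero_of_im h1))
  have h1 := hw z
  have h2 := hw ⟨_, him⟩
  have h3 : ((⟨-1 / ((N : ℂ) * z), him⟩ : ℍ) : ℂ) = -1 / ((N : ℂ) * z) := rfl
  have h4 : f (⟨-1 / ((N : ℂ) * z), him⟩ : ℍ) = f (ofComplex (-1 / ((N : ℂ) * z))) := by
    rw [ofComplex_apply_of_im_pos him]
  rw [h3, h4, h1] at h2
  have h5 : (-1 : ℂ) / ((N : ℂ) * (-1 / ((N : ℂ) * z))) = z := by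
    field_simp
  rw [h5, ofComplex_apply] at h2
  have h6 : w * w * ((-1 / ((N : ℂ) * z)) ^ k * (z : ℂ) ^ k) = 1 := by
    apply mul_right_cancel₀ hz
    linear_combination -h2
  rw [← mul_zpow] at h6
  have h7 : -1 / ((N : ℂ) * z) * (z : ℂ) = -1 / (N : ℂ) := by
    field_simp
  rw [h7] at h6
  unfold eta
  rw [mul_pow, ← zpow_natCast ((Complex.I / (Real.sqrt N : ℂ)) ^ k), ← zpow_mul, mul_comm k,
    zpow_mul]
  have h8 : (Complex.I / (Real.sqrt N : ℂ)) ^ ((2 : ℕ) : ℤ) = -1 / (N : ℂ) := by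
    rw [zpow_natCast, div_pow, Complex.I_sq, ← Complex.ofReal_pow, Real.sq_sqrt (Nat.cast_nonneg N)]
    push_cast
    rfl
  rw [h8]
  linear_combination h6

/-- the sign of the functional equation of the twist -/
noncomputable def sgn (N : ℕ) (k : ℤ) (w : ℂ) {m : ℕ} (ψ : DirichletCharacter ℂ m) : ℂ :=
  open Classical in if N.Coprime m then ψ (-(N : ZMod m)) * eta N k w else ψ (-1) * Complex.I ^ k

lemma fe [NeZero N] {w : ℂ}
    (hw : ∀ z : ℍ, f (ofComplex (-1 / ((N : ℂ) * z))) = w * (z : ℂ) ^ k * f z)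
    {m : ℕ} [NeZero m] (ψ : DirichletCharacter ℂ m) (hsq : ψ ^ 2 = 1)
    (hNm : N.Coprime m ∨ N ∣ m) :
    ∃ q : ℝ, 0 < q ∧ ∀ t : ℝ, 0 < t →
      TS f ψ (Complex.I * (((1 / t) / q : ℝ) : ℂ)) =
        sgn N k w ψ * ((t ^ (k : ℝ) : ℝ) : ℂ) * TS f ψ (Complex.I * ((t / q : ℝ) : ℂ)) := by
  classical
  have hN0 : (0 : ℝ) < N := by exact_mod_cast NeZero.pos N
  have hm0 : (0 : ℝ) < m := by exact_mod_cast NeZero.pos m
  have hNC : (N : ℂ) ≠ 0 := by exact_mod_cast NeZero.ne N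
  have hmC : (m : ℂ) ≠ 0 := by exact_mod_cast NeZero.ne m
  have hsN : 0 < Real.sqrt N := Real.sqrt_pos.2 hN0
  have hsNC : (Real.sqrt N : ℂ) ≠ 0 := by exact_mod_cast hsN.ne'
  have hsq2 : (Real.sqrt N : ℂ) ^ 2 = N := by
    rw [← Complex.ofReal_pow, Real.sq_sqrt hN0.le]
    push_cast
    rfl
  have hI : Complex.I ≠ 0 := Complex.I_ne_zero
  by_cases hc : N.Coprime m
  · refine ⟨m * Real.sqrt N, by positivity, fun t ht => ?_⟩
    have htC : (t : ℂ) ≠ 0 := by exact_mod_cast ht.ne'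
    have hz : 0 < (Complex.I * ((t / (m * Real.sqrt N) : ℝ) : ℂ)).im := by
      simp only [Complex.I_mul_im, Complex.ofReal_re]
      positivity
    have h1 := TS_one f hw (NeZero.pos N) hc ψ hsq hz
    have h2 : -1 / ((N : ℂ) * (m : ℂ) ^ 2 * (Complex.I * ((t / (m * Real.sqrt N) : ℝ) : ℂ))) =
        Complex.I * ((1 / t / (m * Real.sqrt N) : ℝ) : ℂ) := by
      push_cast
      field_simp
      rw [hsq2]
      have := Complex.I_sq
      linear_combination (-(N : ℂ)) * this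
    rw [h2] at h1
    rw [h1]
    congr 1
    unfold sgn eta
    rw [if_pos hc]
    have h3 : (m : ℂ) * (Complex.I * ((t / (m * Real.sqrt N) : ℝ) : ℂ)) =
        Complex.I / (Real.sqrt N : ℂ) * t := by
      push_cast
      field_simp
    rw [h3, mul_zpow]
    have h4 : ((t ^ (k : ℝ) : ℝ) : ℂ) = (t : ℂ) ^ k := by
      rw [Real.rpow_intCast]
      push_cast
      rfl
    rw [h4]
    ring
  · have hdvd : N ∣ m := hNm.resolve_left hc
    refine ⟨m, hm0, fun t ht => ?_⟩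
    have htC : (t : ℂ) ≠ 0 := by exact_mod_cast ht.ne'
    have hz : 0 < (Complex.I * ((t / m : ℝ) : ℂ)).im := by
      simp only [Complex.I_mul_im, Complex.ofReal_re]
      positivity
    have h1 := TS_two f hdvd ψ hsq hz
    have h2 : -1 / ((m : ℂ) ^ 2 * (Complex.I * ((t / m : ℝ) : ℂ))) =
        Complex.I * ((1 / t / m : ℝ) : ℂ) := by
      push_cast
      field_simp
      have := Complex.I_sq
      linear_combination (-1 : ℂ) * this
    rw [h2] at h1
    rw [h1]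
    congr 1
    unfold sgn
    rw [if_neg hc]
    have h3 : (m : ℂ) * (Complex.I * ((t / m : ℝ) : ℂ)) = Complex.I * t := by
      push_cast
      field_simp
    rw [h3, mul_zpow]
    have h4 : ((t ^ (k : ℝ) : ℝ) : ℂ) = (t : ℂ) ^ k := by
      rw [Real.rpow_intCast]
      push_cast
      rfl
    rw [h4]
    ring

/-- **The `L`-function of the twist**: it exists, and its central value vanishes if the sign of the
functional equation is not `1`. -/
theorem exists_L [NeZero N] (hf : IsNewform N k f) (hk : 0 < k) {w : ℂ}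
    (hw : ∀ z : ℍ, f (ofComplex (-1 / ((N : ℂ) * z))) = w * (z : ℂ) ^ k * f z)
    {m : ℕ} [NeZero m] (ψ : DirichletCharacter ℂ m) (hψ : ψ.IsPrimitive) (hsq : ψ ^ 2 = 1)
    (hNm : N.Coprime m ∨ N ∣ m) (hε : sgn N k w ψ ≠ 0) :
    ∃ L : ℂ → ℂ, IsTwistedLFunction N k f ψ L ∧ (sgn N k w ψ ≠ 1 → L (1 / 2) = 0) := by
  obtain ⟨q, hq, hfe⟩ := fe hw ψ hsq hNm
  obtain ⟨C, hC⟩ := A_bound f
  have hk0 : (0 : ℝ) < (k : ℝ) := by exact_mod_cast hk
  have hτ := tau_ne_zero ψ hψ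
  set c : ℕ → ℂ := fun n => tau ψ * (A f n * ψ n) with hc
  have hc0 : c 0 = 0 := by
    rw [hc]
    simp only [A_zero, zero_mul, mul_zero]
  have hcb : ∀ n : ℕ, 1 ≤ n → ‖c n‖ ≤ (‖tau ψ‖ * C) * (n : ℝ) ^ ((k : ℝ) / 2) := by
    intro n hn
    rw [hc]
    simp only [norm_mul]
    have h1 : ‖ψ n‖ ≤ 1 := DirichletCharacter.norm_le_one ψ _
    have h2 := hC n hn
    calc ‖tau ψ‖ * (‖A f n‖ * ‖ψ n‖) ≤ ‖tau ψ‖ * ((C * (n : ℝ) ^ ((k : ℝ) / 2)) * 1) := by
          gcongr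
          exact (norm_nonneg _).trans h2
      _ = _ := by ring
  have hΦ : ∀ t : ℝ, 0 < t → HasSum (fun n : ℕ => c n * (Real.exp (-(2 * Real.pi * n / q) * t) : ℂ))
      (TS f ψ (Complex.I * ((t / q : ℝ) : ℂ))) := by
    intro t ht
    have h1 := hasSum_TS f ψ hψ hsq (y := t / q) (by positivity)
    refine h1.congr_fun fun n => ?_
    have h2 : -(2 * Real.pi * n) * (t / q) = -(2 * Real.pi * n / q) * t := by ring
    rw [h2, hc]
    ring
  obtain ⟨H, hH1, hH2, hH3⟩ := core hc0 hcb hq hΦ (continuousOn_TS f ψ q hq) (k : ℝ) hk0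
    (sgn N k w ψ) hε hfe
  have hqq : ((q / (2 * Real.pi) : ℝ) : ℂ) ≠ 0 := by
    have : (0 : ℝ) < q / (2 * Real.pi) := by positivity
    exact_mod_cast this.ne'
  refine ⟨fun s => H (s + ((k : ℂ) - 1) / 2) *
    (((q / (2 * Real.pi) : ℝ) : ℂ) ^ (-(s + ((k : ℂ) - 1) / 2)) *
      (Complex.Gamma (s + ((k : ℂ) - 1) / 2))⁻¹) * (tau ψ)⁻¹, ⟨?_, ?_⟩, ?_⟩
  · have h1 : Differentiable ℂ fun s : ℂ => s + ((k : ℂ) - 1) / 2 := by fun_prop
    have h2 : Differentiable ℂ fun s : ℂ => H (s + ((k : ℂ) - 1) / 2) := hH1.comp h1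
    have h3 : Differentiable ℂ fun s : ℂ => (Complex.Gamma (s + ((k : ℂ) - 1) / 2))⁻¹ :=
      Complex.differentiable_one_div_Gamma.comp h1
    have h4 : Differentiable ℂ fun s : ℂ =>
        ((q / (2 * Real.pi) : ℝ) : ℂ) ^ (-(s + ((k : ℂ) - 1) / 2)) :=
      h1.neg.const_cpow (Or.inl hqq)
    exact (h2.mul (h4.mul h3)).mul_const _
  · intro s hs
    obtain ⟨C', hC'⟩ := lam_bound (f := f)
    have h1 := (euler_product (fun p : Nat.Primes => lam N k f p)
      (fun p : Nat.Primes => if (p : ℕ) ∣ N then (0 : ℂ) else 1) (fun n => lam N k f n) lam_zero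
      (lam_one hf) (fun p m hm => by rw [lam_rec hf p m hm]) C' hC' ψ s hs).2
    have h2 : H (s + ((k : ℂ) - 1) / 2) *
        (((q / (2 * Real.pi) : ℝ) : ℂ) ^ (-(s + ((k : ℂ) - 1) / 2)) *
        (Complex.Gamma (s + ((k : ℂ) - 1) / 2))⁻¹) * (tau ψ)⁻¹ =
        ∑' n : ℕ, lam N k f n * ψ n * (n : ℂ) ^ (-s) := by
      have hre : (s + ((k : ℂ) - 1) / 2).re = s.re + ((k : ℝ) - 1) / 2 := by
        have : ((k : ℂ) - 1) / 2 = ((((k : ℝ) - 1) / 2 : ℝ) : ℂ) := by push_cast; ring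
        rw [Complex.add_re, this, Complex.ofReal_re]
      have hk1 : (1 : ℝ) ≤ (k : ℝ) := by exact_mod_cast hk
      rw [hH3 _ (by rw [hre]; linarith) (by rw [hre]; linarith)]
      have hG : Complex.Gamma (s + ((k : ℂ) - 1) / 2) ≠ 0 :=
        Complex.Gamma_ne_zero_of_re_pos (by rw [hre]; linarith)
      have hpow : ((q / (2 * Real.pi) : ℝ) : ℂ) ^ (s + ((k : ℂ) - 1) / 2) *
          ((q / (2 * Real.pi) : ℝ) : ℂ) ^ (-(s + ((k : ℂ) - 1) / 2)) = 1 := by
        rw [← Complex.cpow_add _ _ hqq, add_neg_cancel, Complex.cpow_zero]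
      have h5 : ∑' n : ℕ, c n * (n : ℂ) ^ (-(s + ((k : ℂ) - 1) / 2)) =
          tau ψ * ∑' n : ℕ, lam N k f n * ψ n * (n : ℂ) ^ (-s) := by
        rw [← tsum_mul_left]
        refine tsum_congr fun n => ?_
        rcases Nat.eq_zero_or_pos n with rfl | hn
        · rw [hc0, lam_zero]
          ring
        · have hnC : (n : ℂ) ≠ 0 := by exact_mod_cast hn.ne'
          rw [hc, lam_eq, neg_add, Complex.cpow_add _ _ hnC]
          ring
      rw [h5]
      set P := ((q / (2 * Real.pi) : ℝ) : ℂ) ^ (s + ((k : ℂ) - 1) / 2)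
      set P' := ((q / (2 * Real.pi) : ℝ) : ℂ) ^ (-(s + ((k : ℂ) - 1) / 2))
      set S := ∑' n : ℕ, lam N k f n * ψ n * (n : ℂ) ^ (-s)
      have h6 := mul_inv_cancel₀ hG
      have h7 := mul_inv_cancel₀ hτ
      set G := Complex.Gamma (s + ((k : ℂ) - 1) / 2)
      calc P * G * (tau ψ * S) * (P' * G⁻¹) * (tau ψ)⁻¹ =
          (P * P') * (G * G⁻¹) * (tau ψ * (tau ψ)⁻¹) * S := by ring
        _ = S := by rw [hpow, h6, h7]; ring
    change HasProd _ (H (s + ((k : ℂ) - 1) / 2) *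
        (((q / (2 * Real.pi) : ℝ) : ℂ) ^ (-(s + ((k : ℂ) - 1) / 2)) *
        (Complex.Gamma (s + ((k : ℂ) - 1) / 2))⁻¹) * (tau ψ)⁻¹)
    rw [h2]
    exact h1
  · intro hε1
    have h1 := hH2 ((k : ℂ) / 2)
    have h2 : (((k : ℝ) : ℂ)) - (k : ℂ) / 2 = (k : ℂ) / 2 := by push_cast; ring
    rw [h2] at h1
    have h3 : (1 - sgn N k w ψ) * H ((k : ℂ) / 2) = 0 := by linear_combination h1
    have h4 : H ((k : ℂ) / 2) = 0 := by
      rcases mul_eq_zero.1 h3 with h | h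
      · exact absurd (by linear_combination -h) hε1
      · exact h
    have h5 : (1 / 2 : ℂ) + ((k : ℂ) - 1) / 2 = (k : ℂ) / 2 := by ring
    simp only [h5, h4, zero_mul]

/-- the `L`-function is determined by its Euler product -/
theorem unique_L {m : ℕ} {ψ : DirichletCharacter ℂ m} {L L' : ℂ → ℂ}
    (h : IsTwistedLFunction N k f ψ L) (h' : IsTwistedLFunction N k f ψ L') : L = L' := by
  have h1 : AnalyticOnNhd ℂ L Set.univ := fun z _ => h.1.analyticAt z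
  have h2 : AnalyticOnNhd ℂ L' Set.univ := fun z _ => h'.1.analyticAt z
  refine h1.eq_of_eventuallyEq h2 (z₀ := 2) ?_
  have h3 : {s : ℂ | 3 / 2 < s.re} ∈ 𝓝 (2 : ℂ) := by
    refine (isOpen_lt continuous_const Complex.continuous_re).mem_nhds ?_
    norm_num
  filter_upwards [h3] with s hs
  exact (h.2 s hs).unique (h'.2 s hs)

end Run7.h875.SV
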